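import Pool.Agent.H357R3.HoroInv

/-!
# Finite index extensions and countable horofunction boundaries (MP_1403bb_al, Q1)

The implication of Q1 holds if the finite index subgroup `H` is virtually abelian, or of exponential
growth, or non-amenable, or has no finite index subgroup mapping onto `ℤ`.
-/

set_option autoImplicit false

namespace Pool.Agent.Results.MP_1403bb_al.GrowthClasses

open Pool.Agent.H357R3.HoroInv

theorem aux {G : Type} [Group G] (S : Finset G) (hS : Subgroup.closure (S : Set G) = ⊤) :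
    ∃ S' : Finset G, (∀ s ∈ S', s⁻¹ ∈ S') ∧ Subgroup.closure (S' : Set G) = ⊤ ∧
      ran (fun z x => len S' (z⁻¹ * x)) = Set.range (Pool.Agent.H205R3.Horo.mf S) := by
  classical
  let S' : Finset G := S ∪ S.image fun s => s⁻¹
  have hmem : ∀ s, s ∈ S' ↔ s ∈ S ∨ s⁻¹ ∈ S := by
    intro s
    simp only [S', Finset.mem_union, Finset.mem_image]
    refine or_congr Iff.rfl ⟨?_, fun h => ⟨s⁻¹, h, inv_inv s⟩⟩
    rintro ⟨a, ha, rfl⟩
    rwa [inv_inv]
  have hsymm : ∀ s ∈ S', s⁻¹ ∈ S' := by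
    intro s h
    rw [hmem] at h ⊢
    rw [inv_inv]
    exact h.symm
  have hgen : Subgroup.closure (S' : Set G) = ⊤ := by
    rw [eq_top_iff, ← hS]
    exact Subgroup.closure_mono fun s h => Finset.mem_coe.2 ((hmem s).2 (Or.inl h))
  refine ⟨S', hsymm, hgen, ?_⟩
  have hL := lenFun hsymm hgen
  have hwl : ∀ g, Pool.Agent.H205R3.Horo.wl S g = len S' g := by
    intro g
    simp only [Pool.Agent.H205R3.Horo.wl, len, hmem]
  unfold ran
  congr 1
  funext x y
  simp only [Pool.Agent.H205R3.Horo.mf, hwl]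
  have h1 : len S' (x⁻¹ * y) = len S' (y⁻¹ * x) := by
    rw [← hL.inv (x⁻¹ * y)]
    congr 1
    group
  have h2 : len S' (x⁻¹ * 1) = len S' (1⁻¹ * x) := by
    rw [← hL.inv (x⁻¹ * 1)]
    congr 1
    group
  rw [h1, h2]

/-- Let `H` be a finite index subgroup of `G` such that (1) `H` has an abelian subgroup of finite
index, or (2) for some finite set `U ⊆ H` the number of products of `n` elements of `U` grows
exponentially, or (3) `H` is not amenable (there is no left invariant finitely additive probability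
measure on all subsets), or (4) no finite index subgroup of `H` has a nontrivial homomorphism to
`ℤ`. If the boundary of `H` for some word metric is countable, then the boundary of `G` is countable
for every word metric. -/
theorem result :
    ∀ (G : Type) [Group G] (H : Subgroup G), H.FiniteIndex →
    ((∃ A : Subgroup H, A.FiniteIndex ∧ ∀ a ∈ A, ∀ b ∈ A, a * b = b * a) ∨
        (∃ (U : Finset H) (c C : ℝ), 1 < c ∧ ∀ n : ℕ, c ^ n ≤ C *
          (Set.ncard {x : H | ∃ l : List H, l.length = n ∧ (∀ s ∈ l, s ∈ U) ∧ l.prod = x} : ℝ)) ∨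
        (¬ ∃ m : Set H → ℝ, (∀ A, 0 ≤ m A) ∧ m Set.univ = 1 ∧
          (∀ A B, Disjoint A B → m (A ∪ B) = m A + m B) ∧
          ∀ (g : H) (A : Set H), m ((fun x => g * x) '' A) = m A) ∨
        (∀ K : Subgroup H, K.FiniteIndex → ∀ θ : K →* Multiplicative ℤ, θ = 1)) →
    ∀ (S : Finset G), Subgroup.closure (S : Set G) = ⊤ →
    ∀ (T : Finset H), Subgroup.closure (T : Set H) = ⊤ →
    (closure (Set.range (fun x : H => fun y : H =>
        ((sInf {n : ℕ | ∃ l : List H, l.length = n ∧ (∀ s ∈ l, s ∈ T ∨ s⁻¹ ∈ T) ∧ l.prod = x⁻¹ * y} : ℕ) : ℝ)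
        - ((sInf {n : ℕ | ∃ l : List H, l.length = n ∧ (∀ s ∈ l, s ∈ T ∨ s⁻¹ ∈ T) ∧ l.prod = x⁻¹ * 1} : ℕ) : ℝ)))
      \ Set.range (fun x : H => fun y : H =>
        ((sInf {n : ℕ | ∃ l : List H, l.length = n ∧ (∀ s ∈ l, s ∈ T ∨ s⁻¹ ∈ T) ∧ l.prod = x⁻¹ * y} : ℕ) : ℝ)
        - ((sInf {n : ℕ | ∃ l : List H, l.length = n ∧ (∀ s ∈ l, s ∈ T ∨ s⁻¹ ∈ T) ∧ l.prod = x⁻¹ * 1} : ℕ) : ℝ))).Countable →
    (closure (Set.range (fun x : G => fun y : G =>
        ((sInf {n : ℕ | ∃ l : List G, l.length = n ∧ (∀ s ∈ l, s ∈ S ∨ s⁻¹ ∈ S) ∧ l.prod = x⁻¹ * y} : ℕ) : ℝ)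
        - ((sInf {n : ℕ | ∃ l : List G, l.length = n ∧ (∀ s ∈ l, s ∈ S ∨ s⁻¹ ∈ S) ∧ l.prod = x⁻¹ * 1} : ℕ) : ℝ)))
      \ Set.range (fun x : G => fun y : G =>
        ((sInf {n : ℕ | ∃ l : List G, l.length = n ∧ (∀ s ∈ l, s ∈ S ∨ s⁻¹ ∈ S) ∧ l.prod = x⁻¹ * y} : ℕ) : ℝ)
        - ((sInf {n : ℕ | ∃ l : List G, l.length = n ∧ (∀ s ∈ l, s ∈ S ∨ s⁻¹ ∈ S) ∧ l.prod = x⁻¹ * 1} : ℕ) : ℝ))).Countable := by
  intro G _ H hH hcls S hS T hT hcount
  have hcls' : Cls H := hcls
  obtain ⟨T', hT1, hT2, hT3⟩ := aux T hT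
  have hcount' : (closure (Set.range (Pool.Agent.H205R3.Horo.mf T)) \
      Set.range (Pool.Agent.H205R3.Horo.mf T)).Countable := hcount
  rw [← hT3] at hcount'
  obtain ⟨A, hA, hcomm⟩ := (countable_iff hcls' hT1 hT2 (d := fun z x => len T' (z⁻¹ * x))
    (fun z x => rfl)).1 hcount'
  have h1 : (A.map H.subtype).FiniteIndex := by
    refine ⟨?_⟩
    rw [Subgroup.index_map_subtype]
    exact mul_ne_zero hA.index_ne_zero hH.index_ne_zero
  have h2 : ∀ a ∈ A.map H.subtype, ∀ b ∈ A.map H.subtype, a * b = b * a := by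
    rintro _ ⟨a, ha, rfl⟩ _ ⟨b, hb, rfl⟩
    have := hcomm a ha b hb
    exact congrArg (fun x : H => (x : G)) this
  have h3 := Pool.Agent.H205R3.Horo.countable_closure (A.map H.subtype) h1 h2 S hS
  have h4 : (closure (Set.range (Pool.Agent.H205R3.Horo.mf S)) \
      Set.range (Pool.Agent.H205R3.Horo.mf S)).Countable := h3.mono Set.sdiff_subset
  exact h4

end Pool.Agent.Results.MP_1403bb_al.GrowthClasses
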