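import Pool.Agent.H205R3.Horo

/-!
# Countability of the metric-functional boundary for virtually abelian groups (MP_1403bb_al, Q1)

Let `H` be a subgroup of finite index in `G` and suppose that `H` is virtually abelian. Then for
every Cayley metric on `G` the closure of the functions `b_x = d(x, ·) - d(x, e)`, and hence the
metric-functional boundary `∂(G, d)`, is countable. So the implication of Q1 holds for virtually
abelian `H`; this extends the known case `ℤ^d` to all finite extensions.

Proof idea. Let `A` be an abelian normal subgroup of finite index. Every word in the generators
arises from one of finitely many core words by inserting cycles, i.e. bounded words evaluating in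
`A`, at cosets of `A` visited by the core word; the contributions of the cycles commute. A limit
point is the limit of the `b_x` along an ultrafilter, and it is determined by finitely many data for
each core word: a shift in `G`, a length offset in `ℤ`, and for each cycle its multiplicity, a
natural number or infinity. There are only countably many such data.
-/

set_option autoImplicit false

namespace Pool.Agent.Results.MP_1403bb_al.VirtuallyAbelian

open Pool.Agent.H205R3.Horo

/-- Let `H` have finite index in `G` and let `A` be an abelian subgroup of finite index in `H`. Then
for every finite generating set `S` of `G` the pointwise closure of the set of the functions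
`y ↦ d(x, y) - d(x, 1)` is countable, and so is the metric-functional boundary
(the closure minus these functions). -/
theorem result (G : Type) [Group G] (H : Subgroup G) (hH : H.FiniteIndex) (A : Subgroup H)
    (hA : A.FiniteIndex) (hcomm : ∀ a ∈ A, ∀ b ∈ A, a * b = b * a)
    (S : Finset G) (hS : Subgroup.closure (S : Set G) = ⊤) :
    (closure (Set.range (mf S))).Countable ∧ (bdry S).Countable := by
  have h1 : (A.map H.subtype).FiniteIndex := by
    refine ⟨?_⟩
    rw [Subgroup.index_map_subtype]
    exact mul_ne_zero hA.index_ne_zero hH.index_ne_zero
  have h2 : ∀ a ∈ A.map H.subtype, ∀ b ∈ A.map H.subtype, a * b = b * a := by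
    rintro _ ⟨a, ha, rfl⟩ _ ⟨b, hb, rfl⟩
    have := hcomm a ha b hb
    exact congrArg (fun x : H => (x : G)) this
  have h3 := countable_closure (A.map H.subtype) h1 h2 S hS
  exact ⟨h3, h3.mono Set.sdiff_subset⟩

end Pool.Agent.Results.MP_1403bb_al.VirtuallyAbelian
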